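import Pool.Agent.R942.FJ.Det
import Mathlib.Order.Zorn

/-!
# Kernels of locally finite Hirsch length with many homomorphisms to the rationals
-/

set_option autoImplicit false

namespace Run7.h595.EA

open Pool.Agent.Y110.FJ Pool.Agent.R942.FJ

/-- Subgroups with a finite series: `⊥`, and `K` if `K` contains a member `H` such that either
every element of `K` has a positive power in `H`, or some homomorphism from `K` to `ℤ` has its kernel
inside `H`. All groups with a finite subnormal series with torsion or cyclic factors are of this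
kind. -/
inductive FinHirsch {G : Type} [Group G] : Subgroup G → Prop
  | bot : FinHirsch ⊥
  | tor (H K : Subgroup G) : FinHirsch H → H ≤ K → (∀ x ∈ K, ∃ m : ℕ, 0 < m ∧ x ^ m ∈ H) →
      FinHirsch K
  | cyc (H K : Subgroup G) (χ : K →* Multiplicative ℤ) : FinHirsch H → H ≤ K →
      (∀ x : K, χ x = 1 → (x : G) ∈ H) → FinHirsch K

/-- `L` is isolated in `N` -/
def Isol {G : Type} [Group G] (N L : Subgroup G) : Prop :=
  ∀ x ∈ N, ∀ m : ℕ, 0 < m → x ^ m ∈ L → x ∈ L

theorem Isol.zpow {G : Type} [Group G] {N L : Subgroup G} (h : Isol N L) {x : G} (hx : x ∈ N)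
    {b : ℤ} (hb : b ≠ 0) (h1 : x ^ b ∈ L) : x ∈ L := by
  refine h x hx b.natAbs (Int.natAbs_pos.2 hb) ?_
  rcases Int.natAbs_eq b with h2 | h2
  · rw [h2, zpow_natCast] at h1
    exact h1
  · rw [h2, zpow_neg, zpow_natCast] at h1
    exact (Subgroup.inv_mem_iff L).1 h1

/-- **chains of isolated subgroups are eventually constant on subgroups of finite Hirsch length** -/
theorem chain_stop {G : Type} [Group G] {N K : Subgroup G} (hK : FinHirsch K) (hKN : K ≤ N)
    (c : Set (Subgroup G)) (hc : IsChain (· ≤ ·) c) (hne : c.Nonempty)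
    (hi : ∀ L ∈ c, Isol N L) : ∃ L0 ∈ c, ∀ L ∈ c, K ⊓ L0 ≤ L := by
  induction hK with
  | bot =>
    obtain ⟨L0, h0⟩ := hne
    exact ⟨L0, h0, fun L _ => by rw [bot_inf_eq]; exact bot_le⟩
  | tor H K _ hHK ht ih =>
    obtain ⟨L0, h0, h1⟩ := ih (hHK.trans hKN)
    refine ⟨L0, h0, fun L hL x hx => ?_⟩
    obtain ⟨m, hm, hxm⟩ := ht x hx.1
    exact hi L hL x (hKN hx.1) m hm (h1 L hL ⟨hxm, L0.pow_mem hx.2 m⟩)
  | cyc H K χ _ hHK hχ ih =>
    obtain ⟨L1, h0, h1⟩ := ih (hHK.trans hKN)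
    by_cases hA : ∃ L2 ∈ c, ∀ x : K, (x : G) ∈ L2 → χ x = 1
    · obtain ⟨L2, h2, h3⟩ := hA
      rcases hc.total h0 h2 with h4 | h4
      · refine ⟨L1, h0, fun L hL x hx => ?_⟩
        exact h1 L hL ⟨hχ ⟨x, hx.1⟩ (h3 ⟨x, hx.1⟩ (h4 hx.2)), hx.2⟩
      · refine ⟨L2, h2, fun L hL x hx => ?_⟩
        exact h1 L hL ⟨hχ ⟨x, hx.1⟩ (h3 ⟨x, hx.1⟩ hx.2), h4 hx.2⟩
    · push Not at hA
      refine ⟨L1, h0, fun L hL x hx => ?_⟩
      rcases hc.total h0 hL with h4 | h4
      · exact h4 hx.2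
      · obtain ⟨y, hy, hy1⟩ := hA L hL
        let x' : K := ⟨x, hx.1⟩
        let a : ℤ := Multiplicative.toAdd (χ x')
        let b : ℤ := Multiplicative.toAdd (χ y)
        have hb : b ≠ 0 := fun h => hy1 (by
          have h5 : χ y = Multiplicative.ofAdd b := rfl
          rw [h5, h, ofAdd_zero])
        have hw : χ (x' ^ b * (y ^ a)⁻¹) = 1 := by
          apply Multiplicative.toAdd.injective
          rw [map_mul, map_inv, map_zpow, map_zpow, toAdd_mul, toAdd_inv, toAdd_zpow, toAdd_zpow,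
            toAdd_one]
          show b • a + -(a • b) = 0
          rw [smul_eq_mul, smul_eq_mul, mul_comm a b]
          exact add_neg_cancel _
        have hwH := hχ _ hw
        have hwL : ((x' ^ b * (y ^ a)⁻¹ : K) : G) ∈ L := by
          refine h1 L hL ⟨hwH, ?_⟩
          rw [Subgroup.coe_mul, Subgroup.coe_inv, Subgroup.coe_zpow, Subgroup.coe_zpow]
          exact L1.mul_mem (L1.zpow_mem hx.2 b) (L1.inv_mem (L1.zpow_mem (h4 hy) a))
        rw [Subgroup.coe_mul, Subgroup.coe_inv, Subgroup.coe_zpow, Subgroup.coe_zpow] at hwL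
        have h5 : x ^ b ∈ L := by
          have h6 := L.mul_mem hwL (L.zpow_mem hy a)
          rwa [inv_mul_cancel_right] at h6
        exact (hi L hL).zpow (hKN hx.1) hb h5

variable {C : ∀ (G : Type) [Group G], Prop}

theorem iso_mem (hC : ClosedE C) {G H : Type} [Group G] [Group H] (e : G ≃* H) (h : C H) : C G :=
  hC.base.of_injective _ _ e.toMonoidHom e.injective h

/-- `C` and the quotient by the image of `N` -/
theorem quot_mem (hC : ClosedE C) {G : Type} [Group G] (M N : Subgroup G) [M.Normal] [N.Normal]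
    (h : M ≤ N) (hQ : C (G ⧸ N)) [(N.map (QuotientGroup.mk' M)).Normal] :
    C ((G ⧸ M) ⧸ (N.map (QuotientGroup.mk' M))) :=
  iso_mem hC (QuotientGroup.quotientQuotientEquivQuotient M N h) hQ

theorem lift_fin {G : Type} [Group G] (M N : Subgroup G) [M.Normal]
    (E : Set (G ⧸ M)) (hE : E.Finite) (hEN : E ⊆ N.map (QuotientGroup.mk' M)) :
    ∃ E' : Set G, E'.Finite ∧ E' ⊆ N ∧ QuotientGroup.mk' M '' E' = E := by
  choose! s hs using fun x (hx : x ∈ E) => hEN hx
  refine ⟨s '' E, hE.image s, ?_, ?_⟩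
  · rintro _ ⟨x, hx, rfl⟩
    exact (hs x hx).1
  · rw [Set.image_image]
    ext x
    constructor
    · rintro ⟨y, hy, rfl⟩
      show QuotientGroup.mk' M (s y) ∈ E
      rw [(hs y hy).2]
      exact hy
    · intro hx
      exact ⟨x, hx, (hs x hx).2⟩

/-- the limit step -/
theorem lim_mem (hC : ClosedE C) {G : Type} [Group G] (N : Subgroup G) [N.Normal]
    (hQ : C (G ⧸ N)) (c : Set (Subgroup G)) (hc : IsChain (· ≤ ·) c) (hne : c.Nonempty)
    (hN : ∀ L ∈ c, L ≤ N)
    (hi : ∀ L ∈ c, Isol N L) (hq : ∀ L ∈ c, ∃ _ : L.Normal, C (G ⧸ L))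
    (hF : ∀ E : Set G, E.Finite → E ⊆ N → FinHirsch (Subgroup.closure E))
    [hn : (sInf c).Normal] : C (G ⧸ sInf c) := by
  obtain ⟨M, hM⟩ : ∃ M : Subgroup G, M = sInf c := ⟨_, rfl⟩
  rw [← hM] at hn
  have hgoal : C (G ⧸ M) := by
    have hMN : M ≤ N := by
      obtain ⟨L, hL⟩ := hne
      rw [hM]
      exact (sInf_le hL).trans (hN L hL)
    have hnn : (N.map (QuotientGroup.mk' M)).Normal :=
      Subgroup.Normal.map inferInstance _ (QuotientGroup.mk'_surjective M)
    refine main_detected hC (N.map (QuotientGroup.mk' M)) ?_ (quot_mem hC M N hMN hQ)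
    intro g E hE hEN
    obtain ⟨E', hE', hEN', hEE⟩ := lift_fin M N E hE hEN
    obtain ⟨L0, h0, h1⟩ := chain_stop (hF E' hE' hEN') ((Subgroup.closure_le N).2 hEN') c hc hne hi
    obtain ⟨hL0n, hL0⟩ := hq L0 h0
    have hML : M ≤ L0 := by
      rw [hM]
      exact sInf_le h0
    refine ⟨G ⧸ L0, inferInstance,
      (QuotientGroup.map M L0 (MonoidHom.id G) hML).comp (Subgroup.subtype _), hL0, ?_⟩
    intro x hx hx1
    rw [← hEE, ← MonoidHom.map_closure] at hx
    obtain ⟨k, hk, hkx⟩ := hx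
    have h2 : QuotientGroup.map M L0 (MonoidHom.id G) hML (x : G ⧸ M) = 1 := hx1
    rw [← hkx] at h2
    have h3 : (k : G ⧸ L0) = 1 := h2
    have h4 : k ∈ L0 := (QuotientGroup.eq_one_iff k).1 h3
    have h5 : k ∈ M := by
      rw [hM, Subgroup.mem_sInf]
      exact fun L hL => h1 L hL ⟨hk, h4⟩
    apply Subtype.ext
    rw [← hkx]
    exact (QuotientGroup.eq_one_iff k).2 h5
  have key : ∀ (A : Subgroup G) (hA : A.Normal), M = A → C (G ⧸ A) := by
    rintro A hA rfl
    exact hgoal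
  exact key _ _ hM

/-- the solvable step -/
theorem solv_mem (hC : ClosedE C) (hsol : ∀ (S : Type) [Group S], Group.IsSolvable S → C S)
    {G : Type} [Group G] (M' M : Subgroup G) [M'.Normal] [M.Normal] (h : M' ≤ M)
    (hk : ∃ k : ℕ, ∀ x ∈ derivedSeries M k, (x : G) ∈ M') (hQ : C (G ⧸ M)) : C (G ⧸ M') := by
  have hnn : (M.map (QuotientGroup.mk' M')).Normal :=
    Subgroup.Normal.map inferInstance _ (QuotientGroup.mk'_surjective M')
  refine main_detected hC (M.map (QuotientGroup.mk' M')) ?_ (quot_mem hC M' M h hQ)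
  have hs : Group.IsSolvable ↥(M.map (QuotientGroup.mk' M')) := by
    obtain ⟨k, hk⟩ := hk
    let φ : M →* M.map (QuotientGroup.mk' M') :=
      ((QuotientGroup.mk' M').comp M.subtype).codRestrict _ fun x => ⟨x, x.2, rfl⟩
    have hφ : Function.Surjective φ := by
      rintro ⟨_, x, hx, rfl⟩
      exact ⟨⟨x, hx⟩, rfl⟩
    refine ⟨⟨k, ?_⟩⟩
    rw [← map_derivedSeries_eq hφ, eq_bot_iff]
    rintro _ ⟨x, hx, rfl⟩
    rw [Subgroup.mem_bot]
    apply Subtype.ext
    show QuotientGroup.mk' M' (x : G) = 1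
    exact (QuotientGroup.eq_one_iff _).2 (hk x hx)
  intro g E _ _
  exact ⟨_, inferInstance, MonoidHom.id _, hsol _ (solv_sup _ hs g), fun x _ hx => hx⟩

/-- the common kernel of the homomorphisms from `M` to the rational numbers -/
def ratKer {G : Type} [Group G] (M : Subgroup G) : Subgroup G where
  carrier := {x | ∃ h : x ∈ M, ∀ f : M →* Multiplicative ℚ, f ⟨x, h⟩ = 1}
  mul_mem' := by
    rintro x y ⟨hx, hx'⟩ ⟨hy, hy'⟩
    refine ⟨M.mul_mem hx hy, fun f => ?_⟩
    have : (⟨x * y, M.mul_mem hx hy⟩ : M) = ⟨x, hx⟩ * ⟨y, hy⟩ := rfl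
    rw [this, map_mul, hx', hy', one_mul]
  one_mem' := ⟨M.one_mem, fun f => map_one f⟩
  inv_mem' := by
    rintro x ⟨hx, hx'⟩
    refine ⟨M.inv_mem hx, fun f => ?_⟩
    have : (⟨x⁻¹, M.inv_mem hx⟩ : M) = (⟨x, hx⟩ : M)⁻¹ := rfl
    rw [this, map_inv, hx', inv_one]

theorem ratKer_le {G : Type} [Group G] (M : Subgroup G) : ratKer M ≤ M := fun _ h => h.1

theorem ratKer_normal {G : Type} [Group G] (M : Subgroup G) [hM : M.Normal] :
    (ratKer M).Normal := by
  constructor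
  rintro x ⟨hx, hx'⟩ g
  refine ⟨hM.conj_mem x hx g, fun f => ?_⟩
  let φ : M →* M :=
    { toFun := fun y => ⟨g * y * g⁻¹, hM.conj_mem y y.2 g⟩
      map_one' := by
        apply Subtype.ext
        show g * 1 * g⁻¹ = 1
        rw [mul_one, mul_inv_cancel]
      map_mul' := by
        intro a b
        apply Subtype.ext
        show g * (a * b) * g⁻¹ = g * a * g⁻¹ * (g * b * g⁻¹)
        group }
  exact hx' (f.comp φ)

theorem ratKer_isol {G : Type} [Group G] {N M : Subgroup G} (h : Isol N M) :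
    Isol N (ratKer M) := by
  intro x hx m hm hxm
  have h1 : x ∈ M := h x hx m hm hxm.1
  refine ⟨h1, fun f => ?_⟩
  have h2 := hxm.2 f
  have h3 : (⟨x ^ m, hxm.1⟩ : M) = (⟨x, h1⟩ : M) ^ m := rfl
  rw [h3, map_pow] at h2
  have h4 : m • Multiplicative.toAdd (f ⟨x, h1⟩) = 0 := congrArg Multiplicative.toAdd h2
  rw [nsmul_eq_mul, mul_eq_zero] at h4
  rcases h4 with h4 | h4
  · exact absurd (Nat.cast_eq_zero.1 h4) hm.ne'
  · exact Multiplicative.toAdd.injective h4

theorem ratKer_comm {G : Type} [Group G] {M : Subgroup G} : ∀ x ∈ M, ∀ y ∈ M,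
    x * y * x⁻¹ * y⁻¹ ∈ ratKer M := by
  intro x hx y hy
  refine ⟨M.mul_mem (M.mul_mem (M.mul_mem hx hy) (M.inv_mem hx)) (M.inv_mem hy), fun f => ?_⟩
  have h1 : (⟨x * y * x⁻¹ * y⁻¹, M.mul_mem (M.mul_mem (M.mul_mem hx hy) (M.inv_mem hx))
    (M.inv_mem hy)⟩ : M) = ⟨x, hx⟩ * ⟨y, hy⟩ * (⟨x, hx⟩ : M)⁻¹ * (⟨y, hy⟩ : M)⁻¹ := rfl
  rw [h1, map_mul, map_mul, map_mul, map_inv, map_inv, mul_inv_cancel_comm, mul_inv_cancel]

theorem ratKer_der {G : Type} [Group G] (M : Subgroup G) : ∀ x ∈ derivedSeries M 1,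
    (x : G) ∈ ratKer M := by
  intro x hx
  have h1 : derivedSeries M 1 ≤ (ratKer M).subgroupOf M := by
    rw [derivedSeries_one, commutator_def, Subgroup.commutator_le]
    intro a _ b _
    rw [Subgroup.mem_subgroupOf]
    exact ratKer_comm (M := M) a.1 a.2 b.1 b.2
  exact h1 hx

/-- every nontrivial normal subgroup of `G` inside `N` has a nontrivial torsion-free solvable factor
group modulo a normal subgroup of `G` -/
def Desc {G : Type} [Group G] (N : Subgroup G) : Prop :=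
  ∀ M : Subgroup G, M.Normal → M ≤ N → M ≠ ⊥ → ∃ M' : Subgroup G, M'.Normal ∧ M' ≤ M ∧ M' ≠ M ∧
    Isol M M' ∧ ∃ k : ℕ, ∀ x ∈ derivedSeries M k, (x : G) ∈ M'

/-- nonzero homomorphisms to the rational numbers -/
theorem desc_of_rat {G : Type} [Group G] {N : Subgroup G}
    (hR : ∀ M : Subgroup G, M.Normal → M ≤ N → M ≠ ⊥ → ∃ f : M →* Multiplicative ℚ, f ≠ 1) :
    Desc N := by
  intro M hM hMN hM0
  obtain ⟨f, hf⟩ := hR M hM hMN hM0
  refine ⟨ratKer M, ratKer_normal M, ratKer_le M, fun e => hf ?_,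
    ratKer_isol (N := M) (M := M) fun x hx _ _ _ => hx, 1, ratKer_der M⟩
  ext x
  have h1 : (x : G) ∈ ratKer M := by
    rw [e]
    exact x.2
  exact h1.2 f

/-- **the theorem** -/
theorem main (hC : ClosedE C) (hsol : ∀ (S : Type) [Group S], Group.IsSolvable S → C S)
    {G : Type} [Group G] (N : Subgroup G) [hNn : N.Normal] (hQ : C (G ⧸ N))
    (hF : ∀ E : Set G, E.Finite → E ⊆ N → FinHirsch (Subgroup.closure E))
    (hR : Desc N) : C G := by
  let S : Set (Subgroup G)ᵒᵈ := {M | (OrderDual.ofDual M) ≤ N ∧ Isol N (OrderDual.ofDual M) ∧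
    ∃ _ : (OrderDual.ofDual M).Normal, C (G ⧸ (OrderDual.ofDual M))}
  have hNS : OrderDual.toDual N ∈ S := ⟨le_rfl, fun x hx _ _ _ => hx, hNn, hQ⟩
  obtain ⟨M, -, hM⟩ := zorn_le_nonempty₀ S (by
    intro c hcS hc y hy
    let c' : Set (Subgroup G) := OrderDual.toDual ⁻¹' c
    have hne : c'.Nonempty := ⟨OrderDual.ofDual y, hy⟩
    have hc' : IsChain (· ≤ ·) c' := by
      intro a ha b hb hab
      rcases hc ha hb (fun e => hab e) with h | h
      · exact Or.inr h
      · exact Or.inl h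
    have hn : (sInf c').Normal := by
      constructor
      intro x hx g
      rw [Subgroup.mem_sInf] at hx ⊢
      intro L hL
      obtain ⟨-, -, hLn, -⟩ := hcS hL
      exact hLn.conj_mem x (hx L hL) g
    refine ⟨OrderDual.toDual (sInf c'), ⟨?_, ?_, hn, ?_⟩, fun z hz => ?_⟩
    · exact (sInf_le hy : sInf c' ≤ OrderDual.ofDual y).trans (hcS hy).1
    · intro x hx m hm hxm
      have h1 : x ^ m ∈ sInf c' := hxm
      show x ∈ sInf c'
      rw [Subgroup.mem_sInf] at h1 ⊢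
      exact fun L hL => (hcS hL).2.1 x hx m hm (h1 L hL)
    · exact lim_mem hC N hQ c' hc' hne (fun L hL => (hcS hL).1) (fun L hL => (hcS hL).2.1)
        (fun L hL => (hcS hL).2.2) hF
    · show sInf c' ≤ OrderDual.ofDual z
      exact sInf_le hz) _ hNS
  obtain ⟨hMN, hMi, hMn, hMC⟩ := hM.prop
  obtain ⟨A, hA⟩ : ∃ A : Subgroup G, A = OrderDual.ofDual M := ⟨_, rfl⟩
  rw [← hA] at hMN hMi
  have hAn : A.Normal := hA ▸ hMn
  have hAC : C (G ⧸ A) := by
    subst hA
    exact hMC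
  by_cases hbot : A = ⊥
  · subst hbot
    exact iso_mem hC (QuotientGroup.quotientBot (G := G)).symm hAC
  · exfalso
    obtain ⟨A', hn', hle, hne, hi, hk⟩ := hR A hAn hMN hbot
    have hS : OrderDual.toDual A' ∈ S :=
      ⟨hle.trans hMN, fun x hx m hm hxm => hi x (hMi x hx m hm (hle hxm)) m hm hxm, hn',
        solv_mem hC hsol A' A hle hk hAC⟩
    have h1 : M ≤ OrderDual.toDual A' := by
      show A' ≤ OrderDual.ofDual M
      rw [← hA]
      exact hle
    have h2 : OrderDual.toDual A' ≤ M := hM.le_of_ge hS h1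
    have h4 : OrderDual.ofDual M ≤ A' := h2
    rw [← hA] at h4
    exact hne (le_antisymm hle h4)

end Run7.h595.EA
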